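import Pool.Agent.P.MP_263185_co.Defs

/-! Labelled families of words, their products, and the limit which defines the capacity. -/

namespace Pool.Agent.P.MP_263185_co

open Filter Topology Finset

section General

variable {V : Type} {G : SimpleGraph V} {k l : ℕ}

theorem Conf.rfl (x : Fin k → V) : Conf G x x := fun _ => Or.inl (Eq.refl _)

theorem Conf.symm {x y : Fin k → V} (h : Conf G x y) : Conf G y x :=
  fun i => (h i).imp Eq.symm G.adj_symm

theorem conf_append {x y : Fin k → V} {x' y' : Fin l → V}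
    (h : Conf G (Fin.append x x') (Fin.append y y')) : Conf G x y ∧ Conf G x' y' :=
  ⟨fun i => by simpa using h (Fin.castAdd l i), fun i => by simpa using h (Fin.natAdd k i)⟩

/-- all concatenations -/
def cat [DecidableEq V] (S : Finset (Fin k → V)) (T : Finset (Fin l → V)) :
    Finset (Fin (k + l) → V) := (S ×ˢ T).image fun p => Fin.append p.1 p.2

theorem mem_cat [DecidableEq V] {S : Finset (Fin k → V)} {T : Finset (Fin l → V)}
    {z : Fin (k + l) → V} : z ∈ cat S T ↔ ∃ x ∈ S, ∃ y ∈ T, Fin.append x y = z := by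
  simp only [cat, mem_image, mem_product, Prod.exists]
  exact ⟨fun ⟨x, y, ⟨a, b⟩, c⟩ => ⟨x, a, y, b, c⟩, fun ⟨x, a, y, b, c⟩ => ⟨x, y, ⟨a, b⟩, c⟩⟩

theorem card_cat [DecidableEq V] (S : Finset (Fin k → V)) (T : Finset (Fin l → V)) :
    (cat S T).card = S.card * T.card := by
  rw [cat, card_image_of_injective, card_product]
  intro p q h
  exact Prod.ext (funext fun i => by simpa using congrFun h (Fin.castAdd l i))
    (funext fun i => by simpa using congrFun h (Fin.natAdd k i))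

variable [Fintype V]

theorem bdd (G : SimpleGraph V) (k : ℕ) : ∀ n ∈ {n | ∃ S : Finset (Fin k → V),
    (∀ x ∈ S, ∀ y ∈ S, x ≠ y → ¬ Conf G x y) ∧ S.card = n}, n ≤ Fintype.card V ^ k := by
  classical
  rintro _ ⟨S, -, rfl⟩
  simpa using card_le_univ S

theorem le_codeSize {S : Finset (Fin k → V)} (h : ∀ x ∈ S, ∀ y ∈ S, x ≠ y → ¬ Conf G x y) :
    S.card ≤ codeSize G k := le_csSup ⟨_, bdd G k⟩ ⟨S, h, rfl⟩

theorem exists_code (G : SimpleGraph V) (k : ℕ) : ∃ S : Finset (Fin k → V),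
    (∀ x ∈ S, ∀ y ∈ S, x ≠ y → ¬ Conf G x y) ∧ S.card = codeSize G k :=
  Nat.sSup_mem (s := {n | ∃ S : Finset (Fin k → V),
    (∀ x ∈ S, ∀ y ∈ S, x ≠ y → ¬ Conf G x y) ∧ S.card = n}) ⟨0, ∅, by simp, rfl⟩ ⟨_, bdd G k⟩

theorem codeSize_mul (G : SimpleGraph V) (k l : ℕ) :
    codeSize G k * codeSize G l ≤ codeSize G (k + l) := by
  classical
  obtain ⟨S, hS, e⟩ := exists_code G k
  obtain ⟨T, hT, e'⟩ := exists_code G l
  rw [← e, ← e', ← card_cat]
  refine le_codeSize fun z hz z' hz' hne h => hne ?_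
  obtain ⟨x, hx, y, hy, rfl⟩ := mem_cat.1 hz
  obtain ⟨x', hx', y', hy', rfl⟩ := mem_cat.1 hz'
  obtain ⟨h1, h2⟩ := conf_append h
  rw [by_contra fun n : x ≠ x' => hS x hx x' hx' n h1,
    by_contra fun n : y ≠ y' => hT y hy y' hy' n h2]

theorem codeSize_pos [Nonempty V] (G : SimpleGraph V) (k : ℕ) : 0 < codeSize G k :=
  le_codeSize (S := {fun _ => Classical.arbitrary V}) (by simp)

/-- the limit exists and is at least every term -/
theorem exists_limit [Nonempty V] (G : SimpleGraph V) : ∃ θ : ℝ,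
    Tendsto (fun k : ℕ => (codeSize G k : ℝ) ^ (1 / (k : ℝ))) atTop (𝓝 θ) ∧
      ∀ (c : ℝ) (k : ℕ), k ≠ 0 → 0 < c → c ^ k < codeSize G k → c < θ := by
  have p : ∀ k, (0 : ℝ) < codeSize G k := fun k => by exact_mod_cast codeSize_pos G k
  have h : Subadditive fun k => -Real.log (codeSize G k) := fun k l => by
    rw [← neg_add, ← Real.log_mul (p k).ne' (p l).ne', neg_le_neg_iff]
    exact Real.log_le_log (mul_pos (p k) (p l)) (by exact_mod_cast codeSize_mul G k l)
  have b : BddBelow (Set.range fun k : ℕ => -Real.log (codeSize G k) / k) := by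
    refine ⟨-Real.log (Fintype.card V), ?_⟩
    rintro _ ⟨k, rfl⟩
    have h1 : (1 : ℝ) ≤ Fintype.card V := by exact_mod_cast Fintype.card_pos
    rcases Nat.eq_zero_or_pos k with rfl | hk
    · simpa using Real.log_nonneg h1
    · obtain ⟨S, hS, e⟩ := exists_code G k
      rw [le_div_iff₀ (by exact_mod_cast hk), neg_mul, neg_le_neg_iff, mul_comm, ← Real.log_pow]
      exact Real.log_le_log (p k) (by exact_mod_cast bdd G k _ ⟨S, hS, e⟩)
  refine ⟨Real.exp (-h.lim), ?_, fun c k hk hc hl => ?_⟩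
  · refine ((Real.continuous_exp.tendsto _).comp (h.tendsto_lim b).neg).congr fun k => ?_
    rw [Function.comp_apply, Real.rpow_def_of_pos (p k)]
    congr 1
    ring
  · have h1 := h.lim_le_div b hk
    have h2 := Real.log_lt_log (by positivity) hl
    have h3 : (0 : ℝ) < k := by positivity
    rw [Real.log_pow] at h2
    rw [le_div_iff₀ h3] at h1
    rw [← Real.log_lt_iff_lt_exp hc]
    exact lt_of_mul_lt_mul_right (by linarith) h3.le

end General

/-- the seven-cycle -/
abbrev C7 : SimpleGraph (Fin 7) := SimpleGraph.cycleGraph 7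

/-- adjacency of labels -/
def adj (A : List ℕ) (i j : ℕ) : Bool := (A.getD i 0).testBit j

/-- there are classes of words of sizes at least `w`, confusable only along `A` -/
def Fam (k : ℕ) (A w : List ℕ) : Prop :=
  ∃ S : ℕ → Finset (Fin k → Fin 7), (∀ i, w.getD i 0 ≤ (S i).card) ∧
    ∀ i j, ∀ x ∈ S i, ∀ y ∈ S j, Conf C7 x y → (i = j ∧ x = y) ∨ adj A i j = true

theorem Fam.le {k : ℕ} {A w : List ℕ} (h : Fam k A w) (h0 : adj A 0 0 = false) :
    w.getD 0 0 ≤ codeSize C7 k := by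
  obtain ⟨S, h1, h2⟩ := h
  refine (h1 0).trans (le_codeSize fun x hx y hy n c => ?_)
  rcases h2 0 0 x hx y hy c with e | e
  · exact n e.2
  · simp [h0] at e

/-! ### Products -/

/-- triples: left class, right class, new class -/
abbrev Tr : Type := ℕ × ℕ × ℕ

/-- the test for two triples -/
def ok2 (A₁ A₂ A : List ℕ) (e e' : Tr) : Bool :=
  !((e.1 == e'.1 || adj A₁ e.1 e'.1) && (e.2.1 == e'.2.1 || adj A₂ e.2.1 e'.2.1)) ||
    (adj A e.2.2 e'.2.2 && adj A e'.2.2 e.2.2)

/-- the test for a list of triples -/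
def okL (A₁ A₂ A : List ℕ) : List Tr → Bool
  | [] => true
  | e :: f => !adj A₁ e.1 e.1 && !adj A₂ e.2.1 e.2.1 && !adj A e.2.2 e.2.2 &&
      f.all (ok2 A₁ A₂ A e) && okL A₁ A₂ A f

/-- the size of a new class -/
def ws (w₁ w₂ : List ℕ) (l : ℕ) : List Tr → ℕ
  | [] => 0
  | e :: f => if e.2.2 = l then w₁.getD e.1 0 * w₂.getD e.2.1 0 + ws w₁ w₂ l f else ws w₁ w₂ l f

/-- the test for the sizes -/
def okW (w₁ w₂ w : List ℕ) (f : List Tr) : Bool :=
  (List.range w.length).all fun l => decide (w.getD l 0 ≤ ws w₁ w₂ l f)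

theorem Fam.step {k₁ k₂ k : ℕ} {A₁ A₂ A w₁ w₂ w : List ℕ} (h₁ : Fam k₁ A₁ w₁) (h₂ : Fam k₂ A₂ w₂)
    (f : List Tr) (hk : k₁ + k₂ = k) (h : (okL A₁ A₂ A f && okW w₁ w₂ w f) = true) :
    Fam k A w := by
  subst hk
  obtain ⟨S₁, c₁, p₁⟩ := h₁
  obtain ⟨S₂, c₂, p₂⟩ := h₂
  rw [Bool.and_eq_true] at h
  obtain ⟨hf, hw⟩ := h
  suffices ∃ S : ℕ → Finset (Fin (k₁ + k₂) → Fin 7), (∀ i, ws w₁ w₂ i f ≤ (S i).card) ∧
      (∀ i, ∀ x ∈ S i, ∃ e ∈ f, e.2.2 = i ∧ x ∈ cat (S₁ e.1) (S₂ e.2.1)) ∧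
      ∀ i j, ∀ x ∈ S i, ∀ y ∈ S j, Conf C7 x y → (i = j ∧ x = y) ∨ adj A i j = true by
    obtain ⟨S, a, -, b⟩ := this
    refine ⟨S, fun i => ?_, b⟩
    by_cases hi : i < w.length
    · exact (of_decide_eq_true (List.all_eq_true.1 hw i (List.mem_range.2 hi))).trans (a i)
    · rw [List.getD_eq_default _ _ (not_lt.1 hi)]
      exact Nat.zero_le _
  clear hw
  induction f with
  | nil => exact ⟨fun _ => ∅, by simp [ws], by simp, by simp⟩
  | cons e f ih =>
    simp only [okL, Bool.and_eq_true, Bool.not_eq_true', List.all_eq_true] at hf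
    obtain ⟨⟨⟨⟨n₁, n₂⟩, n⟩, ho⟩, hf⟩ := hf
    obtain ⟨S, a, m, b⟩ := ih hf
    have key : ∀ j, ∀ x ∈ cat (S₁ e.1) (S₂ e.2.1), ∀ y ∈ S j, Conf C7 x y →
        adj A e.2.2 j = true ∧ adj A j e.2.2 = true := fun j x hx y hy c => by
      obtain ⟨e', he', rfl, hy'⟩ := m j y hy
      obtain ⟨u, hu, v, hv, rfl⟩ := mem_cat.1 hx
      obtain ⟨u', hu', v', hv', rfl⟩ := mem_cat.1 hy'
      obtain ⟨q₁, q₂⟩ := conf_append c
      have r₁ := (p₁ _ _ u hu u' hu' q₁).imp_left And.left
      have r₂ := (p₂ _ _ v hv v' hv' q₂).imp_left And.left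
      have r := ho e' he'
      simp only [ok2, Bool.or_eq_true, Bool.and_eq_true, Bool.not_eq_true', ← Bool.not_eq_true,
        beq_iff_eq] at r
      simpa using r.resolve_left fun h => h ⟨r₁, r₂⟩
    have self : ∀ x ∈ cat (S₁ e.1) (S₂ e.2.1), ∀ y ∈ cat (S₁ e.1) (S₂ e.2.1), Conf C7 x y →
        x = y := fun x hx y hy c => by
      obtain ⟨u, hu, v, hv, rfl⟩ := mem_cat.1 hx
      obtain ⟨u', hu', v', hv', rfl⟩ := mem_cat.1 hy
      obtain ⟨q₁, q₂⟩ := conf_append c
      rw [((p₁ _ _ u hu u' hu' q₁).resolve_right (by simp [n₁])).2,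
        ((p₂ _ _ v hv v' hv' q₂).resolve_right (by simp [n₂])).2]
    have t : ∀ i x, x ∈ (if e.2.2 = i then cat (S₁ e.1) (S₂ e.2.1) ∪ S i else S i) →
        (e.2.2 = i ∧ x ∈ cat (S₁ e.1) (S₂ e.2.1)) ∨ x ∈ S i := fun i x hx => by
      split_ifs at hx with hi
      · exact (mem_union.1 hx).imp_left fun h => ⟨hi, h⟩
      · exact Or.inr hx
    refine ⟨fun i => if e.2.2 = i then cat (S₁ e.1) (S₂ e.2.1) ∪ S i else S i, fun i => ?_,
      fun i x hx => ?_, fun i j x hx y hy c => ?_⟩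
    · simp only [ws]
      split_ifs with hi
      · rw [card_union_of_disjoint (disjoint_left.2 fun x hx hx' => by
          have := (key i x hx x hx' (Conf.rfl x)).1
          rw [← hi, n] at this
          exact Bool.false_ne_true this), card_cat]
        exact Nat.add_le_add (Nat.mul_le_mul (c₁ _) (c₂ _)) (a i)
      · exact a i
    · rcases t i x hx with h | h
      · exact ⟨e, List.mem_cons_self, h⟩
      · obtain ⟨e', h1, h2⟩ := m i x h
        exact ⟨e', List.mem_cons_of_mem _ h1, h2⟩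
    · rcases t i x hx with ⟨rfl, h⟩ | h <;> rcases t j y hy with ⟨e', h'⟩ | h'
      · exact Or.inl ⟨e', self x h y h' c⟩
      · exact Or.inr (key j x h y h' c).1
      · exact Or.inr (e' ▸ (key i y h' x h c.symm).2)
      · exact b i j x h y h' c

/-! ### The base -/

/-- the word given by the digits of a number -/
def wd : (k : ℕ) → ℕ → Fin k → Fin 7
  | 0, _ => Fin.elim0
  | k + 1, n => Fin.cons ⟨n % 7, Nat.mod_lt _ (by norm_num)⟩ (wd k (n / 7))

/-- the test for confusability -/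
def cf : ℕ → ℕ → ℕ → Bool
  | 0, _, _ => true
  | k + 1, x, y => Nat.ble ((x % 7 + 8 - y % 7) % 7) 2 && cf k (x / 7) (y / 7)

theorem cf_of_conf : ∀ (k x y : ℕ), Conf C7 (wd k x) (wd k y) → cf k x y = true
  | 0, _, _, _ => rfl
  | k + 1, x, y, h => by
    have h0 := h 0
    have t : ∀ a b : Fin 7, a = b ∨ C7.Adj a b → Nat.ble ((a.1 + 8 - b.1) % 7) 2 = true := by
      decide
    rw [cf, Bool.and_eq_true]
    exact ⟨t _ _ h0, cf_of_conf k _ _ fun i => h i.succ⟩

/-- the test for one class -/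
def pw (k : ℕ) : List ℕ → Bool
  | [] => true
  | x :: l => (l.all fun y => !cf k x y) && pw k l

/-- the test for the base -/
def okB (k : ℕ) (A : List ℕ) (L : List (List ℕ)) : Bool :=
  L.all (pw k) && (List.range L.length).all fun i => (List.range L.length).all fun j =>
    i == j || adj A i j || (L.getD i []).all fun x => (L.getD j []).all fun y => !cf k x y

theorem pw_spec {k : ℕ} : ∀ {l : List ℕ}, pw k l = true →
    (l.map (wd k)).Pairwise fun x y => ¬ Conf C7 x y
  | [], _ => by simp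
  | x :: l, h => by
    simp only [pw, Bool.and_eq_true, List.all_eq_true, Bool.not_eq_true'] at h
    rw [List.map_cons, List.pairwise_cons]
    refine ⟨fun z hz c => ?_, pw_spec h.2⟩
    obtain ⟨y, hy, rfl⟩ := List.mem_map.1 hz
    simpa [cf_of_conf k x y c] using h.1 y hy

theorem Fam.base {k : ℕ} {A w : List ℕ} (L : List (List ℕ)) (hw : w = L.map List.length)
    (h : okB k A L = true) : Fam k A w := by
  simp only [okB, Bool.and_eq_true, List.all_eq_true, Bool.or_eq_true, beq_iff_eq,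
    Bool.not_eq_true', List.mem_range] at h
  have p : ∀ i, ((L.getD i []).map (wd k)).Pairwise fun x y => ¬ Conf C7 x y := fun i => by
    by_cases hi : i < L.length
    · exact pw_spec (h.1 _ (by rw [List.getD_eq_getElem _ _ hi]; exact List.getElem_mem hi))
    · rw [List.getD_eq_default _ _ (not_lt.1 hi)]
      exact List.Pairwise.nil
  have lt : ∀ i x, x ∈ L.getD i [] → i < L.length := fun i x hx => by
    by_contra hi
    rw [List.getD_eq_default _ _ (not_lt.1 hi)] at hx
    exact List.not_mem_nil hx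
  refine ⟨fun i => ((L.getD i []).map (wd k)).toFinset, fun i => ?_, fun i j x hx y hy c => ?_⟩
  · rw [List.toFinset_card_of_nodup
      ((p i).imp fun {x y} h (e : x = y) => h (e ▸ Conf.rfl _)), List.length_map, hw]
    exact (List.getD_map L [] List.length (n := i)).le
  · rw [List.mem_toFinset] at hx hy
    by_cases e : i = j
    · subst e
      refine Or.inl ⟨rfl, ?_⟩
      have : Std.Symm fun x y : Fin k → Fin 7 => Conf C7 x y → x = y :=
        ⟨fun _ _ h c => (h c.symm).symm⟩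
      exact List.Pairwise.forall_of_forall (R := fun x y => Conf C7 x y → x = y)
        (fun _ _ _ => rfl) ((p i).imp fun h c => absurd c h) hx hy c
    · obtain ⟨u, hu, rfl⟩ := List.mem_map.1 hx
      obtain ⟨v, hv, rfl⟩ := List.mem_map.1 hy
      rcases h.2 i (lt i u hu) j (lt j v hv) with (h | h) | h
      · exact absurd h e
      · exact Or.inr h
      · simpa [cf_of_conf k u v c] using h u hu v hv

end Pool.Agent.P.MP_263185_co
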