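import Mathlib

/-! Zero-error codes in a graph. -/

namespace Pool.Agent.P.MP_263185_co

/-- two words are confusable if in every position their letters are equal or adjacent -/
def Conf {V : Type} (G : SimpleGraph V) {k : ℕ} (x y : Fin k → V) : Prop :=
  ∀ i, x i = y i ∨ G.Adj (x i) (y i)

/-- the largest size of a set of words of length `k` no two distinct of which are confusable -/
noncomputable def codeSize {V : Type} (G : SimpleGraph V) (k : ℕ) : ℕ :=
  sSup {n | ∃ S : Finset (Fin k → V), (∀ x ∈ S, ∀ y ∈ S, x ≠ y → ¬ Conf G x y) ∧ S.card = n}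

end Pool.Agent.P.MP_263185_co
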