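import Pool.Agent.P.MP_263185_co.Core

/-! A faster test for the product step. -/

namespace Pool.Agent.P.MP_263185_co

/-- a bit of a number -/
def tb (m n : ℕ) : Bool := Nat.beq (Nat.land (Nat.shiftRight m n) 1) 1

theorem tb_eq (m n : ℕ) : tb m n = m.testBit n := by
  have h : Nat.land (Nat.shiftRight m n) 1 = m >>> n % 2 := Nat.and_one_is_mod _
  rw [tb, h, Nat.testBit_eq_decide_div_mod_eq, Nat.shiftRight_eq_div_pow, Bool.eq_iff_iff]
  simp

/-- evaluate a number first -/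
noncomputable def force (n : ℕ) (f : ℕ → Bool) : Bool :=
  Nat.rec (f 0) (fun k _ => f k.succ) n

theorem force_eq (n : ℕ) (f : ℕ → Bool) : force n f = f n := by cases n <;> rfl

/-- closed neighbourhood -/
def nb (A : List ℕ) (i : ℕ) : ℕ := Nat.lor (A.getD i 0) (Nat.pow 2 i)

theorem tb_nb (A : List ℕ) (i j : ℕ) : tb (nb A i) j = (i == j || adj A i j) := by
  have h : nb A i = A.getD i 0 ||| 2 ^ i := rfl
  rw [tb_eq, h, Nat.testBit_or, Nat.testBit_two_pow, Bool.or_comm, adj]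
  rfl

/-- a class: its number, its neighbours, its pairs -/
abbrev Row : Type := ℕ × ℕ × List (ℕ × ℕ)

/-- no pair of the list is hit -/
noncomputable def miss (m₁ m₂ : ℕ) (r : List (ℕ × ℕ)) : Bool :=
  List.rec true (fun p _ ih => cond (tb m₁ p.1) (cond (tb m₂ p.2) false ih) ih) r

theorem miss_spec {m₁ m₂ : ℕ} : ∀ {r : List (ℕ × ℕ)}, miss m₁ m₂ r = true →
    ∀ p ∈ r, (tb m₁ p.1 && tb m₂ p.2) = false
  | [], _ => by simp
  | q :: r, h => by
    have e : miss m₁ m₂ (q :: r) =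
      cond (tb m₁ q.1) (cond (tb m₂ q.2) false (miss m₁ m₂ r)) (miss m₁ m₂ r) := rfl
    rw [e] at h
    have : (tb m₁ q.1 && tb m₂ q.2) = false ∧ miss m₁ m₂ r = true := by
      revert h
      cases tb m₁ q.1 <;> cases tb m₂ q.2 <;> simp
    exact List.forall_mem_cons.2 ⟨this.1, miss_spec this.2⟩

/-- the test against later classes -/
noncomputable def later (m₁ m₂ m : ℕ) (R : List Row) : Bool :=
  List.rec true (fun q _ ih => cond (tb m q.1) ih (cond (miss m₁ m₂ q.2.2) ih false)) R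

theorem later_spec {m₁ m₂ m : ℕ} : ∀ {R : List Row}, later m₁ m₂ m R = true →
    ∀ q ∈ R, tb m q.1 = true ∨ miss m₁ m₂ q.2.2 = true
  | [], _ => by simp
  | q :: R, h => by
    have e : later m₁ m₂ m (q :: R) = cond (tb m q.1) (later m₁ m₂ m R)
      (cond (miss m₁ m₂ q.2.2) (later m₁ m₂ m R) false) := rfl
    rw [e] at h
    have : (tb m q.1 = true ∨ miss m₁ m₂ q.2.2 = true) ∧ later m₁ m₂ m R = true := by
      revert h
      cases tb m q.1 <;> cases miss m₁ m₂ q.2.2 <;> simp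
    exact List.forall_mem_cons.2 ⟨this.1, later_spec this.2⟩

/-- the test for the pairs of one class -/
noncomputable def inRow (A₁ A₂ : List ℕ) (m : ℕ) (R : List Row) (r : List (ℕ × ℕ)) : Bool :=
  List.rec true (fun p r ih => force (nb A₁ p.1) fun m₁ => force (nb A₂ p.2) fun m₂ =>
    !adj A₁ p.1 p.1 && (!adj A₂ p.2 p.2 && (miss m₁ m₂ r && (later m₁ m₂ m R && ih)))) r

/-- the size of a class -/
def rowW (w₁ w₂ : List ℕ) : List (ℕ × ℕ) → ℕ
  | [] => 0
  | p :: r => w₁.getD p.1 0 * w₂.getD p.2 0 + rowW w₁ w₂ r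

/-- the test for all classes -/
noncomputable def okR (A₁ A₂ A : List ℕ) (R : List Row) : Bool :=
  List.rec true (fun q R ih => Nat.beq q.2.1 (A.getD q.1 0) && (!tb q.2.1 q.1 &&
    ((R.all fun s => tb q.2.1 s.1 == tb s.2.1 q.1) && (inRow A₁ A₂ q.2.1 R q.2.2 && ih)))) R

/-- the list of triples -/
def flat : List Row → List Tr
  | [] => []
  | q :: R => (q.2.2.map fun p => (p.1, p.2, q.1)) ++ flat R

theorem mem_flat : ∀ {R : List Row} {e : Tr}, e ∈ flat R →
    ∃ q ∈ R, e.2.2 = q.1 ∧ (e.1, e.2.1) ∈ q.2.2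
  | [], _, h => by simp [flat] at h
  | q :: R, e, h => by
    rcases List.mem_append.1 h with h | h
    · obtain ⟨p, hp, rfl⟩ := List.mem_map.1 h
      exact ⟨q, List.mem_cons_self, rfl, hp⟩
    · obtain ⟨s, a, b⟩ := mem_flat h
      exact ⟨s, List.mem_cons_of_mem _ a, b⟩

theorem okR_spec {A₁ A₂ A : List ℕ} : ∀ {R : List Row}, okR A₁ A₂ A R = true →
    (∀ q ∈ R, q.2.1 = A.getD q.1 0) ∧ okL A₁ A₂ A (flat R) = true
  | [], _ => ⟨by simp, rfl⟩
  | (l, m, r) :: R, h => by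
    have e : okR A₁ A₂ A ((l, m, r) :: R) = (Nat.beq m (A.getD l 0) && (!tb m l &&
      ((R.all fun s => tb m s.1 == tb s.2.1 l) && (inRow A₁ A₂ m R r && okR A₁ A₂ A R)))) := rfl
    simp only [e, Bool.and_eq_true, Nat.beq_eq, Bool.not_eq_true', List.all_eq_true,
      beq_iff_eq] at h
    obtain ⟨rfl, h₀, hs, hr, h⟩ := h
    obtain ⟨hm, hR⟩ := okR_spec h
    refine ⟨List.forall_mem_cons.2 ⟨rfl, hm⟩, ?_⟩
    rw [flat]
    induction r with
    | nil => exact hR
    | cons p r ih =>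
      have e : inRow A₁ A₂ (A.getD l 0) R (p :: r) = force (nb A₁ p.1) fun m₁ =>
        force (nb A₂ p.2) fun m₂ => !adj A₁ p.1 p.1 && (!adj A₂ p.2 p.2 && (miss m₁ m₂ r &&
          (later m₁ m₂ (A.getD l 0) R && inRow A₁ A₂ (A.getD l 0) R r))) := rfl
      simp only [e, force_eq, Bool.and_eq_true, Bool.not_eq_true'] at hr
      obtain ⟨a₁, a₂, a₃, a₄, a₅⟩ := hr
      rw [tb_eq] at h₀
      simp only [List.map_cons, List.cons_append, okL, Bool.and_eq_true, Bool.not_eq_true',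
        List.all_eq_true]
      refine ⟨⟨⟨⟨a₁, a₂⟩, h₀⟩, fun f hf => ?_⟩, ih rfl a₅⟩
      rw [ok2, ← tb_nb, ← tb_nb, Bool.or_eq_true, Bool.not_eq_true', Bool.and_eq_true]
      rcases List.mem_append.1 hf with hf | hf
      · obtain ⟨s, hs, rfl⟩ := List.mem_map.1 hf
        exact Or.inl (miss_spec a₃ s hs)
      · obtain ⟨q, hq, e₁, e₂⟩ := mem_flat hf
        refine (later_spec a₄ q hq).symm.imp (fun h => miss_spec h _ e₂) fun h => ?_
        have h' := (hs q hq).symm.trans h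
        rw [hm q hq] at h'
        rw [tb_eq] at h h'
        rw [e₁]
        exact ⟨h, h'⟩

theorem ws_append (w₁ w₂ : List ℕ) (l : ℕ) (g : List Tr) : ∀ f : List Tr,
    ws w₁ w₂ l (f ++ g) = ws w₁ w₂ l f + ws w₁ w₂ l g
  | [] => by simp [ws]
  | e :: f => by
    simp only [List.cons_append, ws, ws_append w₁ w₂ l g f]
    split_ifs
    · exact (Nat.add_assoc _ _ _).symm
    · rfl

theorem ws_map (w₁ w₂ : List ℕ) (l : ℕ) : ∀ r : List (ℕ × ℕ),
    ws w₁ w₂ l (r.map fun p => (p.1, p.2, l)) = rowW w₁ w₂ r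
  | [] => rfl
  | p :: r => by simp only [List.map_cons, ws, rowW, if_true, ws_map w₁ w₂ l r]

theorem rowW_le (w₁ w₂ : List ℕ) : ∀ {R : List Row} {q : Row}, q ∈ R →
    rowW w₁ w₂ q.2.2 ≤ ws w₁ w₂ q.1 (flat R)
  | s :: R, q, h => by
    rw [flat, ws_append]
    rcases List.mem_cons.1 h with rfl | h
    · exact (ws_map w₁ w₂ _ _).ge.trans (Nat.le_add_right _ _)
    · exact (rowW_le w₁ w₂ h).trans (Nat.le_add_left _ _)

theorem Fam.fast {k₁ k₂ k : ℕ} {A₁ A₂ A w₁ w₂ w : List ℕ} (h₁ : Fam k₁ A₁ w₁) (h₂ : Fam k₂ A₂ w₂)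
    (R : List Row) (hk : k₁ + k₂ = k) (h : okR A₁ A₂ A R = true)
    (hw : ((R.map Prod.fst == List.range w.length) &&
      R.all fun q => Nat.ble (w.getD q.1 0) (rowW w₁ w₂ q.2.2)) = true) : Fam k A w := by
  simp only [Bool.and_eq_true, beq_iff_eq, List.all_eq_true, Nat.ble_eq] at hw
  refine h₁.step h₂ (flat R) hk ?_
  rw [(okR_spec h).2, Bool.true_and, okW, List.all_eq_true]
  intro l hl
  rw [← hw.1] at hl
  obtain ⟨q, hq, rfl⟩ := List.mem_map.1 hl
  exact decide_eq_true ((hw.2 q hq).trans (rowW_le w₁ w₂ hq))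

end Pool.Agent.P.MP_263185_co
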