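import Pool.Agent.P.MP_263185_co.Core

/-! Fraction graphs near five halves. -/

namespace Pool.Agent.P.MP_263185_co

open Filter Topology Finset

/-- the fraction graph: distinct residues modulo `p` are adjacent if their distance on the cycle
of length `p` is less than `q` -/
def frac (p q : ℕ) : SimpleGraph (Fin p) where
  Adj x y := x ≠ y ∧ ∃ z : ℤ, |((x : ℕ) : ℤ) - (y : ℕ) - z * p| < q
  symm := ⟨fun x y h => ⟨h.1.symm, h.2.elim fun z hz => ⟨-z, by
    rw [← abs_neg]; convert hz using 2; ring⟩⟩⟩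
  loopless := ⟨fun x h => h.1 rfl⟩

/-- integer vectors at distance at least `t` modulo `L` give a code in a fraction graph -/
theorem le_frac {α : Type} {k p q : ℕ} {L t : ℤ} (hL : 0 < L) (hp : 0 < p) (hq : 0 < q)
    (h : q * L ≤ t * p) (S : Finset α) (x : α → Fin k → ℤ)
    (hx : ∀ a ∈ S, ∀ b ∈ S, a ≠ b → ∃ i, ∀ z : ℤ, t ≤ |x a i - x b i - z * L|) :
    S.card ≤ codeSize (frac p q) k := by
  classical
  have p0 : (0 : ℤ) < p := by exact_mod_cast hp
  let f : ℤ → Fin p := fun u => ⟨((p * u / L) % p).toNat, by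
    have := Int.emod_lt_of_pos (p * u / L) p0
    have := Int.emod_nonneg (p * u / L) p0.ne'
    omega⟩
  have hf : ∀ u, (((f u : ℕ) : ℤ)) = p * u / L - p * (p * u / L / p) := fun u => by
    have := Int.emod_nonneg (p * u / L) p0.ne'
    have := Int.emod_add_mul_ediv (p * u / L) p
    simp only [f]; omega
  have key : ∀ u v : ℤ, (∀ z : ℤ, t ≤ |u - v - z * L|) → ¬ (f u = f v ∨ (frac p q).Adj (f u) (f v)) := by
    intro u v H hc
    obtain ⟨z, hz⟩ : ∃ z : ℤ, |((f u : ℕ) : ℤ) - (f v : ℕ) - z * p| < q := by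
      rcases hc with hc | hc
      · exact ⟨0, by rw [hc]; simpa using hq⟩
      · exact hc.2
    rw [hf, hf] at hz
    have h1 := H (z + p * u / L / p - p * v / L / p)
    have a1 := Int.emod_add_mul_ediv (p * u) L
    have a2 := Int.emod_add_mul_ediv (p * v) L
    have b1 := Int.emod_lt_of_pos (p * u) hL
    have b2 := Int.emod_lt_of_pos (p * v) hL
    have c1 := Int.emod_nonneg (p * u) hL.ne'
    have c2 := Int.emod_nonneg (p * v) hL.ne'
    obtain ⟨d1, d2⟩ := abs_lt.1 hz
    have e1 := mul_le_mul_of_nonneg_left (Int.add_one_le_iff.2 d1) hL.le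
    have e2 := mul_le_mul_of_nonneg_left (Int.add_one_le_iff.2 d2) hL.le
    rcases le_abs.1 h1 with h2 | h2
    · have := mul_le_mul_of_nonneg_left h2 p0.le
      nlinarith
    · have := mul_le_mul_of_nonneg_left h2 p0.le
      nlinarith
  have nc : ∀ a ∈ S, ∀ b ∈ S, a ≠ b → ¬ Conf (frac p q) (fun i => f (x a i)) (fun i => f (x b i)) :=
    fun a ha b hb n c => (hx a ha b hb n).elim fun i hi => key _ _ hi (c i)
  rw [← card_image_of_injOn (f := fun a i => f (x a i)) (s := S)
    fun a ha b hb e => by_contra fun n => nc a ha b hb n fun i => .inl (congrFun e i)]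
  refine le_codeSize fun u hu v hv n => ?_
  obtain ⟨a, ha, rfl⟩ := mem_image.1 hu
  obtain ⟨b, hb, rfl⟩ := mem_image.1 hv
  exact nc a ha b hb fun e => n (by rw [e])

/-- monotonicity in the ratio -/
theorem frac_mono {k p q p' q' : ℕ} (hp : 0 < p) (hp' : 0 < p') (hq' : 0 < q')
    (h : q' * p ≤ q * p') : codeSize (frac p q) k ≤ codeSize (frac p' q') k := by
  obtain ⟨S, hS, e⟩ := exists_code (frac p q) k
  rw [← e]
  refine le_frac (L := p) (t := q) (by exact_mod_cast hp) hp' hq' (by exact_mod_cast h) S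
    (fun a i => ((a i : ℕ) : ℤ)) fun a ha b hb n => ?_
  obtain ⟨i, hi⟩ := not_forall.1 (hS a ha b hb n)
  rw [not_or] at hi
  exact ⟨i, fun z => not_lt.1 fun hz => hi.2 ⟨hi.1, z, hz⟩⟩

/-- the kernel of the pentagon -/
noncomputable def pk (a b : Fin 5) : ℝ :=
  if a = b then 1 else if a = b + 1 ∨ b = a + 1 then (√5 - 1) / 2 else 0

theorem adj5 {a b : Fin 5} : a = b + 1 ∨ b = a + 1 → (frac 5 2).Adj a b := by
  have : ∀ a : Fin 5, (frac 5 2).Adj (a + 1) a := fun a => ⟨by revert a; decide,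
    if a = 4 then -1 else 0, by revert a; decide⟩
  rintro (rfl | rfl)
  exacts [this _, (this _).symm]

theorem pk_eq (a b : Fin 5) : pk a b = √5 / 5 +
    ∑ j, (5 + √5) / 10 * ((pk a j - √5 / 5) * (pk b j - √5 / 5)) := by
  have s : √5 ^ 2 = 5 := Real.sq_sqrt (by norm_num)
  have s3 : √5 ^ 3 = 5 * √5 := by rw [pow_succ, s]
  simp only [pk, Fin.sum_univ_five]
  fin_cases a <;> fin_cases b <;> simp (decide := true) only [if_true, if_false] <;> ring_nf <;>
    simp only [s, s3] <;> ring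

/-- the bound of Lovasz for the pentagon -/
theorem pent (k : ℕ) : (codeSize (frac 5 2) k : ℝ) ≤ √5 ^ k := by
  classical
  obtain ⟨S, hS, e⟩ := exists_code (frac 5 2) k
  let u : Fin 5 → Option (Fin 5) → ℝ := fun a j => j.elim 1 fun j => pk a j - √5 / 5
  let w : Option (Fin 5) → ℝ := fun j => j.elim (√5 / 5) fun _ => (5 + √5) / 10
  have w0 : ∀ j, 0 ≤ w j := fun j => by cases j <;> simp only [w, Option.elim] <;> positivity
  have h1 : ∀ x y : Fin k → Fin 5, ∑ j : Fin k → Option (Fin 5),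
      (∏ i, w (j i)) * ((∏ i, u (x i) (j i)) * ∏ i, u (y i) (j i)) = ∏ i, pk (x i) (y i) := by
    intro x y
    simp only [← prod_mul_distrib]
    rw [← Fintype.piFinset_univ, ← prod_univ_sum (fun _ => univ)
      (fun i j => w j * (u (x i) j * u (y i) j))]
    refine prod_congr rfl fun i _ => ?_
    rw [Fintype.sum_option, pk_eq]
    simp only [u, w, Option.elim, mul_one]
  have h2 : ∑ j : Fin k → Option (Fin 5), (∏ i, w (j i)) * (∑ x ∈ S, ∏ i, u (x i) (j i)) ^ 2 =
      S.card := by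
    simp only [sq, sum_mul_sum]
    simp only [mul_sum]
    rw [sum_comm, card_eq_sum_ones]
    push_cast
    refine sum_congr rfl fun x hx => ?_
    rw [sum_comm, sum_eq_single x (fun y hy n => ?_) fun n => absurd hx n, h1]
    · simp [pk]
    · obtain ⟨i, hi⟩ := not_forall.1 (hS x hx y hy n.symm)
      rw [not_or] at hi
      rw [h1]
      exact prod_eq_zero (mem_univ i) (by rw [pk, if_neg hi.1, if_neg fun h => hi.2 (adj5 h)])
  have h3 := single_le_sum (f := fun j : Fin k → Option (Fin 5) =>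
    (∏ i, w (j i)) * (∑ x ∈ S, ∏ i, u (x i) (j i)) ^ 2)
    (fun j _ => mul_nonneg (prod_nonneg fun i _ => w0 _) (sq_nonneg _)) (mem_univ fun _ => none)
  rw [h2] at h3
  simp only [u, w, Option.elim, prod_const, one_pow, sum_const, card_univ, Fintype.card_fin,
    nsmul_eq_mul, mul_one, e] at h3
  have c0 : (0 : ℝ) < codeSize (frac 5 2) k := by exact_mod_cast codeSize_pos _ k
  have s : √5 / 5 * √5 = 1 := by
    rw [div_mul_eq_mul_div, Real.mul_self_sqrt (by norm_num)]; norm_num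
  have h4 : (√5 / 5) ^ k * codeSize (frac 5 2) k ≤ 1 := by nlinarith
  calc (codeSize (frac 5 2) k : ℝ) = √5 ^ k * ((√5 / 5) ^ k * codeSize (frac 5 2) k) := by
        rw [← mul_assoc, ← mul_pow, mul_comm √5, s, one_pow, one_mul]
    _ ≤ √5 ^ k * 1 := by gcongr
    _ = _ := mul_one _

/-- one step of the sign rule -/
theorem step {P d d' e e' : ℤ} (h : d' = 5 * d - P * (e' - 5 * e)) (h1 : |d| < P) (h2 : |d'| < P)
    (n : ∀ a : ℤ, a = 2 ∨ a = 4 →
      ∃ z : ℤ, |a * (P + 1) * e' + d' - z * (5 * (P + 1))| < 2 * (P + 1) + 1)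
    (hd' : d' ≠ 0) : (0 < d ↔ 0 < d') ↔ (Even e ↔ Even e') := by
  obtain ⟨a1, a2⟩ := abs_lt.1 h1
  obtain ⟨b1, b2⟩ := abs_lt.1 h2
  have A : ∀ a g : ℤ, a = 2 ∨ a = 4 → a * e' = 2 + 5 * g → d' < 0 := fun a g ha hg => by
    obtain ⟨z, hz⟩ := n a ha
    rw [show a * (P + 1) * e' + d' - z * (5 * (P + 1)) = 2 * (P + 1) + d' - (z - g) * (5 * (P + 1))
      by linear_combination (P + 1) * hg, abs_lt] at hz
    rcases le_or_gt (z - g) 0 with c | c
    · have : d' ≤ 0 := by nlinarith
      omega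
    · nlinarith
  have B : ∀ a g : ℤ, a = 2 ∨ a = 4 → a * e' = -2 + 5 * g → 0 < d' := fun a g ha hg => by
    obtain ⟨z, hz⟩ := n a ha
    rw [show a * (P + 1) * e' + d' - z * (5 * (P + 1)) = -2 * (P + 1) + d' - (z - g) * (5 * (P + 1))
      by linear_combination (P + 1) * hg, abs_lt] at hz
    rcases le_or_gt 0 (z - g) with c | c
    · have : 0 ≤ d' := by nlinarith
      omega
    · nlinarith
  obtain ⟨D, rfl⟩ : ∃ D, e' = D + 5 * e := ⟨e' - 5 * e, by ring⟩
  rw [add_sub_cancel_right] at h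
  have l1 : D < 6 := by nlinarith
  have l2 : -6 < D := by nlinarith
  have A2 := fun g => A 2 g (.inl rfl)
  have A4 := fun g => A 4 g (.inr rfl)
  have B2 := fun g => B 2 g (.inl rfl)
  have B4 := fun g => B 4 g (.inr rfl)
  have c1 := A2 ((2 * (D + 5 * e) - 2) / 5)
  have c2 := A4 ((4 * (D + 5 * e) - 2) / 5)
  have c3 := B2 ((2 * (D + 5 * e) + 2) / 5)
  have c4 := B4 ((4 * (D + 5 * e) + 2) / 5)
  simp only [Int.even_iff]
  clear A B A2 A4 B2 B4 n h1 h2
  interval_cases D <;> omega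

/-- two numbers of the same parity are separated -/
theorem sep (m : ℕ) {P t s : ℤ} (hP : P = 5 ^ m + 1) (t0 : 0 < t) (t1 : t < P) (s0 : 0 < s)
    (s1 : s < P) (hne : t ≠ s) (ev : Even (t - s)) : ∃ b < m, ∃ a : ℤ, (a = 2 ∨ a = 4) ∧ ∀ z : ℤ,
      2 * (P + 1) + 1 ≤ |a * (P + 1) * (5 ^ (b + 1) * t / P) + 5 ^ (b + 1) * t % P -
        (a * (P + 1) * (5 ^ (b + 1) * s / P) + 5 ^ (b + 1) * s % P) - z * (5 * (P + 1))| := by
  by_contra hc
  push Not at hc
  have P0 : 0 < P := t0.trans t1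
  let d : ℕ → ℤ := fun b => 5 ^ b * t % P - 5 ^ b * s % P
  let e : ℕ → ℤ := fun b => 5 ^ b * t / P - 5 ^ b * s / P
  have r : ∀ b, d b = 5 ^ b * (t - s) - P * e b := fun b => by
    have := Int.emod_add_mul_ediv (5 ^ b * t) P
    have := Int.emod_add_mul_ediv (5 ^ b * s) P
    simp only [d, e]; linarith
  have bd : ∀ b, |d b| < P := fun b => by
    have := Int.emod_lt_of_pos (5 ^ b * t) P0
    have := Int.emod_lt_of_pos (5 ^ b * s) P0
    have := Int.emod_nonneg (5 ^ b * t) P0.ne'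
    have := Int.emod_nonneg (5 ^ b * s) P0.ne'
    simp only [d, abs_lt]; omega
  have dv : ∀ c : ℤ, P * c = t - s → False := fun c h => by
    rcases lt_trichotomy c 0 with g | g | g
    · nlinarith
    · exact hne (by rw [g] at h; linarith)
    · nlinarith
  have nz : ∀ b ≤ m, d b ≠ 0 := fun b hb h0 => by
    obtain ⟨c, rfl⟩ := Nat.exists_eq_add_of_le hb
    refine dv (t - s - 5 ^ c * e b) ?_
    have := r b
    rw [pow_add] at hP
    linear_combination (t - s) * hP - 5 ^ c * this + 5 ^ c * h0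
  have inv : ∀ b ≤ m, (0 < t - s ↔ 0 < d b) ↔ Even (e b) := fun b => by
    induction b with
    | zero =>
      intro _
      have e0 : e 0 = 0 := by
        simp only [e, pow_zero, one_mul, Int.ediv_eq_zero_of_lt t0.le t1,
          Int.ediv_eq_zero_of_lt s0.le s1, sub_self]
      rw [r, e0]; simp
    | succ b ih =>
      intro hb
      have h1 := ih (by omega)
      have h2 := step (P := P) (d := d b) (d' := d (b + 1)) (e := e b) (e' := e (b + 1))
        (by rw [r, r]; ring) (bd _) (bd _) (fun a ha => (hc b (by omega) a ha).imp fun z hz => by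
          refine lt_of_eq_of_lt (congrArg _ ?_) hz; simp only [d, e]; ring) (nz _ hb)
      tauto
  have h1 := inv m le_rfl
  have h2 := r m
  have h3 := abs_lt.1 (bd m)
  have h4 : d m + (t - s) = P * (t - s - e m) := by linear_combination h2 - (t - s) * hP
  have pm : ∀ u : ℤ, 0 < u → u < P → 5 ^ m * u % P = P - u := fun u u0 u1 => by
    rw [show 5 ^ m * u = P - u + P * (u - 1) by linear_combination (-u) * hP,
      Int.add_mul_emod_self_left, Int.emod_eq_of_lt (by omega) (by omega)]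
  have h5 : d m = -(t - s) := by simp only [d, pm t t0 t1, pm s s0 s1]; ring
  have h6 : e m = t - s := by
    rw [h5, neg_add_cancel] at h4
    have := (mul_eq_zero.1 h4.symm).resolve_left P0.ne'
    linarith
  rw [h5, h6] at h1
  have := h1.2 ev
  omega

/-- half of the words survive below five halves -/
theorem half (m : ℕ) {p q : ℕ} (hp : 0 < p) (hq : 0 < q)
    (h : q * (5 * (5 ^ m + 2)) ≤ (2 * (5 ^ m + 2) + 1) * p) :
    5 ^ m < 2 * codeSize (frac p q) (2 * m) := by
  obtain ⟨N, hN⟩ : Odd (5 ^ m) := Odd.pow (by decide)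
  have hN' : (5 : ℤ) ^ m = 2 * N + 1 := by exact_mod_cast hN
  have := le_frac (k := 2 * m) (L := 5 * (5 ^ m + 1 + 1)) (t := 2 * (5 ^ m + 1 + 1) + 1)
    (by positivity) hp hq (by have := (Int.ofNat_le.2 h); push_cast at this; linarith)
    (range (N + 1)) (fun j i => (2 + 2 * ((i : ℕ) % 2 : ℕ)) * (5 ^ m + 1 + 1) *
      (5 ^ ((i : ℕ) / 2 + 1) * (2 * (j : ℤ) + 1) / (5 ^ m + 1)) +
        5 ^ ((i : ℕ) / 2 + 1) * (2 * (j : ℤ) + 1) % (5 ^ m + 1)) fun j hj l hl n => by
      rw [mem_range] at hj hl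
      obtain ⟨b, hb, a, ha, hz⟩ := sep m (t := 2 * (j : ℤ) + 1) (s := 2 * (l : ℤ) + 1) rfl
        (by omega) (by omega) (by omega) (by omega) (by omega) ⟨j - l, by ring⟩
      rcases ha with rfl | rfl
      · refine ⟨⟨2 * b, by omega⟩, fun z => ?_⟩
        simpa [show 2 * b / 2 = b by omega] using hz z
      · refine ⟨⟨2 * b + 1, by omega⟩, fun z => ?_⟩
        have := hz z
        simp only [show (2 * b + 1) / 2 = b by omega, show (2 * b + 1) % 2 = 1 by omega]
        norm_num
        exact this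
  rw [card_range] at this
  omega

end Pool.Agent.P.MP_263185_co
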