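import Pool.Agent.P.MP_263185_co.Fast

/-! Codes with words of different lengths. -/

namespace Pool.Agent.P.MP_263185_co

open Filter Topology

/-- a family with all sizes multiplied by `s` -/
def FamS (s : ℝ) (k : ℕ) (A w : List ℕ) : Prop := Fam k A (w.map fun x : ℕ => ⌈x * s⌉₊)

theorem getD_scale (s : ℝ) (w : List ℕ) (i : ℕ) :
    (w.map fun x : ℕ => ⌈x * s⌉₊).getD i 0 = ⌈w.getD i 0 * s⌉₊ := by
  simpa using List.getD_map w 0 (fun x : ℕ => ⌈x * s⌉₊) (n := i)

theorem ws_scale (s : ℝ) (w₁ w₂ : List ℕ) (l : ℕ) : ∀ f : List Tr,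
    ws w₁ w₂ l f * s ≤ ws w₁ (w₂.map fun x : ℕ => ⌈x * s⌉₊) l f
  | [] => by simp [ws]
  | e :: f => by
    have ih := ws_scale s w₁ w₂ l f
    simp only [ws, getD_scale]
    split_ifs
    · push_cast
      rw [add_mul, mul_assoc]
      exact add_le_add (mul_le_mul_of_nonneg_left (Nat.le_ceil _) (Nat.cast_nonneg _)) ih
    · exact ih

theorem FamS.fast {s : ℝ} {k₁ k₂ k : ℕ} {A₁ A₂ A w₁ w₂ w : List ℕ} (h₁ : Fam k₁ A₁ w₁)
    (h₂ : FamS s k₂ A₂ w₂) (s0 : 0 ≤ s) (R : List Row) (hk : k₁ + k₂ = k)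
    (h : okR A₁ A₂ A R = true) (hw : ((R.map Prod.fst == List.range w.length) &&
      R.all fun q => Nat.ble (w.getD q.1 0) (rowW w₁ w₂ q.2.2)) = true) : FamS s k A w := by
  simp only [Bool.and_eq_true, beq_iff_eq, List.all_eq_true, Nat.ble_eq] at hw
  refine h₁.step h₂ (flat R) hk ?_
  rw [(okR_spec h).2, Bool.true_and, okW, List.all_eq_true, List.length_map]
  intro l hl
  rw [← hw.1] at hl
  obtain ⟨q, hq, rfl⟩ := List.mem_map.1 hl
  rw [getD_scale]
  refine decide_eq_true (Nat.ceil_le.2 (le_trans ?_ (ws_scale s w₁ w₂ _ _)))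
  exact mul_le_mul_of_nonneg_right (by exact_mod_cast (hw.2 q hq).trans (rowW_le w₁ w₂ hq)) s0

theorem FamS.nil (s : ℝ) (k : ℕ) : FamS s k [0] [0] :=
  ⟨fun _ => ∅, fun i => by rw [getD_scale]; cases i <;> simp, by simp⟩

/-- the class `0`, which is adjacent to all others, is replaced by a largest code -/
theorem FamS.fill {s : ℝ} {k d e x : ℕ} {A w : List ℕ} (h : FamS s k A (x :: w)) (s0 : 0 ≤ s)
    (hd : e * s ≤ codeSize C7 k) (hA : (Nat.ble d e &&
      (List.range w.length).all fun j => adj A 0 (j + 1) && adj A (j + 1) 0) = true) :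
    FamS s k A (d :: w) := by
  obtain ⟨S, h1, h2⟩ := h
  obtain ⟨D, hD, e⟩ := exists_code C7 k
  simp only [List.all_eq_true, List.mem_range, Bool.and_eq_true, Nat.ble_eq] at hA
  obtain ⟨de, hA⟩ := hA
  refine ⟨fun i => Nat.casesOn i D fun j => if j < w.length then S (j + 1) else ∅, fun i => ?_,
    fun i j => ?_⟩
  · rw [getD_scale]
    cases i with
    | zero =>
      exact (Nat.ceil_le.2 ((mul_le_mul_of_nonneg_right (by exact_mod_cast de) s0).trans
        hd)).trans e.ge
    | succ j =>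
      have := h1 (j + 1)
      rw [getD_scale] at this
      dsimp only
      split_ifs with hj
      · exact this
      · rw [List.getD_cons_succ, List.getD_eq_default _ _ (not_lt.1 hj)]
        simp
  · have t : ∀ j x, x ∈ (if j < w.length then S (j + 1) else ∅) →
        j < w.length ∧ x ∈ S (j + 1) := fun j x hx => by
      split_ifs at hx with hj
      · exact ⟨hj, hx⟩
      · simp at hx
    intro x hx y hy c
    cases i <;> cases j
    · exact Or.inl ⟨rfl, by_contra fun n => hD x hx y hy n c⟩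
    · exact Or.inr (hA _ (t _ _ hy).1).1
    · exact Or.inr (hA _ (t _ _ hx).1).2
    · exact h2 _ _ x (t _ _ hx).2 y (t _ _ hy).2 c

theorem FamS.le {s : ℝ} {k d j : ℕ} {A w : List ℕ} (h : FamS s k A w) (s0 : 0 ≤ s)
    (h0 : (!adj A j j && Nat.ble d (w.getD j 0)) = true) : d * s ≤ codeSize C7 k := by
  simp only [Bool.and_eq_true, Bool.not_eq_true', Nat.ble_eq] at h0
  obtain ⟨S, h1, h2⟩ := h
  have := (h1 j).trans (le_codeSize (G := C7) fun x hx y hy n c => by
    rcases h2 j j x hx y hy c with e | e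
    · exact n e.2
    · simp [h0.1] at e)
  rw [getD_scale] at this
  exact (mul_le_mul_of_nonneg_right (by exact_mod_cast h0.2) s0).trans (Nat.ceil_le.1 this)

/-- growth from a recursion with memory `m` and steps of length `u` -/
theorem growth {p q m u : ℕ} (hu : u ≠ 0) (p0 : p ≠ 0) (q0 : q ≠ 0) (m0 : m ≠ 0)
    (h : ∀ (s : ℝ) (k : ℕ), 0 ≤ s →
      (∀ i < m, (p ^ i * q ^ (m - i) : ℕ) * s ≤ codeSize C7 (i * u + k)) →
      (p ^ m : ℕ) * s ≤ codeSize C7 (m * u + k)) :
    ∃ θ : ℝ, Tendsto (fun k : ℕ => (codeSize C7 k : ℝ) ^ (1 / (k : ℝ))) atTop (𝓝 θ) ∧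
      ∀ c : ℝ, 0 < c → c ^ u * q < p → c < θ := by
  obtain ⟨θ, h1, h2⟩ := exists_limit C7
  refine ⟨θ, h1, fun c c0 hc => ?_⟩
  have pp : (0 : ℝ) < p := by positivity
  have qq : (0 : ℝ) < q := by positivity
  have key : ∀ n, ∀ i < m, (p ^ i * q ^ (m - i) : ℕ) * ((p / q : ℝ) ^ n / (p * q) ^ m) ≤
      codeSize C7 (i * u + (n * u + 1)) := by
    intro n
    induction n with
    | zero =>
      intro i hi
      refine le_trans ?_ (show (1 : ℝ) ≤ _ by exact_mod_cast codeSize_pos C7 _)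
      rw [pow_zero, mul_one_div, div_le_one (by positivity), mul_pow]
      exact_mod_cast Nat.mul_le_mul (Nat.pow_le_pow_right (Nat.pos_of_ne_zero p0) hi.le)
        (Nat.pow_le_pow_right (Nat.pos_of_ne_zero q0) (Nat.sub_le m i))
    | succ n ih =>
      intro i hi
      have e : ((p ^ i * q ^ (m - i) : ℕ) : ℝ) * ((p / q : ℝ) ^ (n + 1) / (p * q) ^ m) =
          (p ^ (i + 1) * q ^ (m - (i + 1)) : ℕ) * ((p / q : ℝ) ^ n / (p * q) ^ m) := by
        rw [show m - i = m - (i + 1) + 1 by omega, pow_succ (p / q : ℝ)]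
        push_cast
        field_simp
        ring
      rw [e, show i * u + ((n + 1) * u + 1) = (i + 1) * u + (n * u + 1) by ring]
      rcases (Nat.succ_le_of_lt hi).lt_or_eq with hi | hi
      · exact ih _ hi
      · rw [show i + 1 = m from hi, Nat.sub_self, pow_zero, mul_one]
        exact h _ _ (by positivity) ih
  have lim := (tendsto_pow_atTop_nhds_zero_of_lt_one (r := c ^ u / (p / q)) (by positivity)
    ((div_lt_one (by positivity)).2 ((lt_div_iff₀ qq).2 hc))).mul_const (c * p ^ m)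
  rw [zero_mul] at lim
  obtain ⟨n, hn⟩ := (lim.eventually_lt_const one_pos).exists
  refine h2 c (n * u + 1) (by positivity) c0 (lt_of_lt_of_le ?_ (by
    simpa only [zero_mul, zero_add] using key n 0 (Nat.pos_of_ne_zero m0)))
  rw [div_pow, div_mul_eq_mul_div, div_lt_one (by positivity), ← pow_mul, mul_comm u,
    ← mul_assoc, ← pow_succ, ← lt_div_iff₀ (by positivity)] at hn
  refine hn.trans_le (le_of_eq ?_)
  simp only [pow_zero, one_mul, Nat.sub_zero, mul_pow]
  push_cast
  field_simp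

end Pool.Agent.P.MP_263185_co
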